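import Pool.Agent.K1H79.TW.GStm

/-! Project TW, piece E3: the fixed field of a central element of order three. -/

set_option autoImplicit false

namespace Pool.Agent.K1H97.TW
open NumberField Pool.Agent.K1H79.TW

/-- `E3`: the fixed field of a central element of order three -/
theorem t_E3 : S_E3 := by
  intro hQ K _ _ _ z hz h3 hG
  have hN : (Subgroup.zpowers z).Normal := by
    refine ⟨fun n hn g => ?_⟩
    obtain ⟨k, rfl⟩ := Subgroup.mem_zpowers_iff.1 hn
    have hzk : z ^ k ∈ Subgroup.center Gal(K/ℚ) := Subgroup.zpow_mem _ hz k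
    have h1 : g * z ^ k = z ^ k * g := (Subgroup.mem_center_iff.1 hzk g)
    rw [h1, mul_assoc, mul_inv_cancel, mul_one]
    exact Subgroup.zpow_mem _ (Subgroup.mem_zpowers z) k
  set E : IntermediateField ℚ K := IntermediateField.fixedField (Subgroup.zpowers z) with hE
  have hGal : IsGalois ℚ E := IsGalois.of_fixedField_normal_subgroup (Subgroup.zpowers z)
  have : IsGalois E K := inferInstance
  refine ⟨E, hGal, inferInstance, ?_, ?_⟩
  · rw [hE, IntermediateField.finrank_fixedField_eq_card, ← h3, Nat.card_zpowers]
  · refine hQ Gal(K/ℚ) Gal(E/ℚ) (AlgEquiv.restrictNormalHom (F := ℚ) (K₁ := K) E) z ?_ hz h3 ?_ hG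
    · exact AlgEquiv.restrictNormalHom_surjective K
    · have h2 : E.fixingSubgroup = Subgroup.zpowers z := IntermediateField.fixingSubgroup_fixedField _
      rw [← h2]
      ext σ
      rw [MonoidHom.mem_ker, IntermediateField.mem_fixingSubgroup_iff]
      constructor
      · intro h x hx
        have h4 := AlgEquiv.restrictNormal_commutes σ E ⟨x, hx⟩
        have h5 : σ.restrictNormal E = 1 := h
        rw [h5] at h4
        exact h4.symm
      · intro h
        refine AlgEquiv.ext fun x => (algebraMap E K).injective ?_
        have h4 := AlgEquiv.restrictNormal_commutes σ E x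
        exact h4.trans (h x.1 x.2)

end Pool.Agent.K1H97.TW
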